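import Pool.Agent.Helper13.OPN.Iface
import Pool.Agent.Helper10.UL.Gen4

/-!
# Project OPN: thin sets and linear systems in a subfield

A thin set over `F₁` contains the vectors of a linear system `∑ a_e v_e`, `a` over `F`, only for `a` in a hypersurface,
if one of the quotients `v_i / v_j` is transcendental over `F`.
-/

universe u v w

namespace Pool.Agent.OPN

open Polynomial Pool.Agent.Helper37.UL

/-- ultrafilters on a family which is Zariski dense over `F` -/
private theorem exists_ultra45 {F : Type u} [Field F] {K : Type v} {J : Type w} (vv : J → K → F)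
    (hS : ∀ Ψ : MvPolynomial K F, Ψ ≠ 0 → ∃ j, MvPolynomial.eval (vv j) Ψ ≠ 0) :
    ∃ U : Ultrafilter J, ∀ Ψ : MvPolynomial K F, Ψ ≠ 0 →
      ∀ᶠ j in (U : Filter J), MvPolynomial.eval (vv j) Ψ ≠ 0 := by
  classical
  obtain ⟨U, hU⟩ := Ultrafilter.exists_ultrafilter_of_finite_inter_nonempty
    {A : Set J | ∃ Ψ : MvPolynomial K F, Ψ ≠ 0 ∧ A = {j | MvPolynomial.eval (vv j) Ψ ≠ 0}} (by
    intro T hT
    have hT' : ∀ A ∈ T, ∃ Ψ : MvPolynomial K F, Ψ ≠ 0 ∧
      A = {j | MvPolynomial.eval (vv j) Ψ ≠ 0} := fun A hA => hT hA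
    choose! Ψ hΨ0 hΨ using hT'
    obtain ⟨j, ha0⟩ := hS (∏ A ∈ T, Ψ A) (Finset.prod_ne_zero_iff.mpr hΨ0)
    rw [map_prod, Finset.prod_ne_zero_iff] at ha0
    refine ⟨j, ?_⟩
    rw [Set.mem_sInter]
    intro A hA
    rw [hΨ A hA]
    exact ha0 A hA)
  exact ⟨U, fun Ψ hΨ => hU ⟨Ψ, hΨ, rfl⟩⟩

/-- the substitution `X_i = ∑_e v_e X_(i,e)` -/
private noncomputable def sub45 {F₁ : Type u} [Field F₁] {I : Type} {l : ℕ} (v : Fin (l + 1) → F₁) :
    MvPolynomial I F₁ →ₐ[F₁] MvPolynomial (I × Fin (l + 1)) F₁ :=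
  MvPolynomial.bind₁ fun i => ∑ e, MvPolynomial.C (v e) * MvPolynomial.X (i, e)

private theorem sub_injective45 {F₁ : Type u} [Field F₁] {I : Type} {l : ℕ} {v : Fin (l + 1) → F₁}
    {j₀ : Fin (l + 1)} (hj : v j₀ ≠ 0) : Function.Injective (sub45 (I := I) v) := by
  classical
  have h1 : Function.LeftInverse (MvPolynomial.bind₁ fun q : I × Fin (l + 1) =>
      if q.2 = j₀ then MvPolynomial.C (v j₀)⁻¹ * MvPolynomial.X q.1 else
        (0 : MvPolynomial I F₁)) (sub45 (I := I) v) := by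
    intro Ψ
    unfold sub45
    rw [MvPolynomial.bind₁_bind₁]
    have h2 : (fun i : I => (MvPolynomial.bind₁ fun q : I × Fin (l + 1) =>
        if q.2 = j₀ then MvPolynomial.C (v j₀)⁻¹ * MvPolynomial.X q.1 else
          (0 : MvPolynomial I F₁)) (∑ e, MvPolynomial.C (v e) * MvPolynomial.X (i, e))) =
        MvPolynomial.X := by
      funext i
      rw [map_sum, Finset.sum_eq_single j₀]
      · rw [map_mul, MvPolynomial.bind₁_C_right, MvPolynomial.bind₁_X_right, if_pos rfl,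
          ← mul_assoc, ← MvPolynomial.C_mul, mul_inv_cancel₀ hj, MvPolynomial.C_1, one_mul]
      · intro e _ he
        rw [map_mul, MvPolynomial.bind₁_X_right, if_neg he, mul_zero]
      · intro h
        exact absurd (Finset.mem_univ _) h
    rw [h2, MvPolynomial.bind₁_X_left]
    rfl
  exact h1.injective

private theorem eval_sub45 {F₁ : Type u} [Field F₁] {I : Type} {l : ℕ} (v : Fin (l + 1) → F₁)
    (b : I × Fin (l + 1) → F₁) (Ψ : MvPolynomial I F₁) :
    MvPolynomial.eval b (sub45 v Ψ) = MvPolynomial.eval (fun i => ∑ e, b (i, e) * v e) Ψ := by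
  unfold sub45
  rw [MvPolynomial.eval, MvPolynomial.eval₂Hom_bind₁]
  congr 2
  funext i
  rw [map_sum]
  refine Finset.sum_congr rfl fun e _ => ?_
  rw [map_mul, MvPolynomial.eval₂Hom_C, MvPolynomial.eval₂Hom_X', RingHom.id_apply, mul_comm]

/-- **OPEN.** Thin sets over `F₁` contain the vectors of a linear system over `F` only for parameters in a hypersurface. -/
theorem open_of_thin {F F₁ : Type u} [Field F] [CharZero F] [Field F₁] [Algebra F F₁]
    (hF₁ : ∃ S : Finset F₁, Subfield.closure (S : Set F₁) = ⊤)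
    {I : Type} [Finite I] {l : ℕ} {v : Fin (l + 1) → F₁} {i₀ j₀ : Fin (l + 1)}
    (hv : Transcendental F (v i₀ / v j₀)) {A : Set (I → F₁)} (hA : UL.IsThin A) :
    ∃ Ψ : MvPolynomial (I × Fin (l + 1)) F, Ψ ≠ 0 ∧ ∀ a : I × Fin (l + 1) → F,
      (fun i => ∑ e, algebraMap F F₁ (a (i, e)) * v e) ∈ A → MvPolynomial.eval a Ψ = 0 := by
  classical
  by_contra hcon
  push Not at hcon
  have : CharZero F₁ := charZero_of_injective_algebraMap (algebraMap F F₁).injective
  have hj : v j₀ ≠ 0 := by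
    intro h0
    apply hv
    rw [h0, div_zero]
    exact isAlgebraic_zero
  obtain ⟨Ψ₀, S₀, hΨ₀, hS₀, hAS⟩ := hA
  obtain ⟨U, hU⟩ := exists_ultra45
    (fun j : {a : I × Fin (l + 1) → F // (fun i => ∑ e, algebraMap F F₁ (a (i, e)) * v e) ∈ A} => j.1)
    (fun Ψ hΨ => by
      obtain ⟨a, ha, hne⟩ := hcon Ψ hΨ
      exact ⟨⟨a, ha⟩, hne⟩)
  have hall : ∀ᶠ j in (U : Filter {a : I × Fin (l + 1) → F //
      (fun i => ∑ e, algebraMap F F₁ (a (i, e)) * v e) ∈ A}),
      MvPolynomial.eval (fun i => ∑ e, algebraMap F F₁ (j.1 (i, e)) * v e) Ψ₀ = 0 ∨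
      ∃ Q ∈ S₀, ∃ x : F₁, eval₂ (MvPolynomial.eval fun i => ∑ e, algebraMap F F₁ (j.1 (i, e)) * v e)
        x Q = 0 := Filter.Eventually.of_forall fun j => hAS _ j.2
  rw [Ultrafilter.eventually_or] at hall
  rcases hall with h1 | h1
  · have h2 := UL.gen_extend (C := F₁) hU (sub45 v Ψ₀)
      (fun h0 => hΨ₀ (sub_injective45 hj (by rw [h0, map_zero])))
    obtain ⟨j, h3, h4⟩ := (h1.and h2).exists
    apply h4
    rw [eval_sub45]
    exact h3
  · obtain ⟨Q, hQ, h2⟩ : ∃ Q ∈ S₀, ∀ᶠ j in (U : Filter {a : I × Fin (l + 1) → F //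
        (fun i => ∑ e, algebraMap F F₁ (a (i, e)) * v e) ∈ A}),
        ∃ x : F₁, eval₂ (MvPolynomial.eval fun i => ∑ e, algebraMap F F₁ (j.1 (i, e)) * v e) x Q = 0 := by
      by_contra hne
      push Not at hne
      have h4 := (Filter.eventually_all_finset S₀).2 hne
      obtain ⟨j, ⟨Q, hQ, x, hx⟩, h5⟩ := (h1.and h4).exists
      exact h5 Q hQ x hx
    have h3 : ∃ x : {a : I × Fin (l + 1) → F //
        (fun i => ∑ e, algebraMap F F₁ (a (i, e)) * v e) ∈ A} → F₁, ∀ j,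
        (∃ y : F₁, eval₂ (MvPolynomial.eval fun i => ∑ e, algebraMap F F₁ (j.1 (i, e)) * v e) y Q = 0) →
        eval₂ (MvPolynomial.eval fun i => ∑ e, algebraMap F F₁ (j.1 (i, e)) * v e) (x j) Q = 0 := by
      refine ⟨fun j => if h : ∃ y : F₁,
        eval₂ (MvPolynomial.eval fun i => ∑ e, algebraMap F F₁ (j.1 (i, e)) * v e) y Q = 0 then
        h.choose else 0, fun j h => ?_⟩
      beta_reduce
      rw [dif_pos h]
      exact h.choose_spec
    obtain ⟨x, hx⟩ := h3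
    obtain ⟨S, _, π, hπ⟩ := exists_up U (AlgebraicClosure F₁)
    exact no_root (C := AlgebraicClosure F₁) hF₁ hv hπ hU (hS₀ Q hQ).1 (hS₀ Q hQ).2
      (h2.mono fun j h => hx j h)

end Pool.Agent.OPN
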